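import Pool.Agent.P.MP_ab3ecb_nt.AN.Defs
import Pool.Agent.P.MP_ab3ecb_nt.AM.All

/-! Points tied to a given point by a rational map, and polynomial formulas for their sums. -/

set_option autoImplicit false
set_option linter.unusedSectionVars false

namespace Pool.Agent.P.MP_ab3ecb_nt.AN

open Filter Topology NumberField IsDedekindDomain Finset Pool.Agent.P.MP_ab3ecb_nt.TK
open Pool.Agent.P.MP_ab3ecb_nt.AM hiding On InCl evr pt Gen Lim Apx Con on_iff evr_bc
open scoped Classical NNReal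

variable {K : Type} [Field K] [NumberField K] {A₀ B₀ A B : 𝓞 K} {k : ℕ}

/-- The multiples of `T` are the values of one rational map at the multiples of `P`. -/
def Tied (P : Pt A₀ B₀ K) (T : Pt A B K) : Prop :=
  NT T ∧ ∃ G : Fin 3 → MvPolynomial (Fin 2) K,
    (∀ m : ℤ, m ≠ 0 → ∃ c : K, ∀ j,
      MvPolynomial.aeval ![X (m • P), Y (m • P)] (G j) = c * rep (m • T) j) ∧
    ∃ c : K, c ≠ 0 ∧ ∀ j, MvPolynomial.aeval ![X P, Y P] (G j) = c * rep T j

/-- The point is a sum of tied points. -/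
def Tc (P : Pt A₀ B₀ K) (T : Pt A B K) : Prop := T ∈ AddSubgroup.closure {T | Tied P T}

lemma rep_neg {L : Type} [Field L] [Algebra K L] (T : Pt A B L) :
    ∃ e : L, e ≠ 0 ∧ ∀ j, ![1, -1, 1] j * rep T j = e * rep (-T) j := by
  by_cases h : T = 0
  · refine ⟨-1, by simp, fun j => ?_⟩
    rw [h, neg_zero]
    fin_cases j <;> simp
  · refine ⟨1, one_ne_zero, fun j => ?_⟩
    rw [rep_ne h, rep_ne (neg_ne_zero.2 h)]
    fin_cases j <;> simp

lemma Tied.neg {P : Pt A₀ B₀ K} {T : Pt A B K} (h : Tied P T) : Tied P (-T) := by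
  obtain ⟨h1, G, h2, c, h3, h4⟩ := h
  refine ⟨by simpa using nt_zsmul h1 (n := -1) (by simp),
    fun j => MvPolynomial.C (![1, -1, 1] j) * G j, fun m hm => ?_, ?_⟩
  · obtain ⟨c, h5⟩ := h2 m hm
    obtain ⟨e, -, he⟩ := rep_neg (m • T)
    refine ⟨c * e, fun j => ?_⟩
    rw [map_mul, h5, MvPolynomial.aeval_C, smul_neg, mul_assoc c, ← he]
    simp only [Algebra.algebraMap_self, RingHom.id_apply]
    ring
  · obtain ⟨e, e0, he⟩ := rep_neg T
    refine ⟨c * e, mul_ne_zero h3 e0, fun j => ?_⟩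
    rw [map_mul, h4, MvPolynomial.aeval_C, mul_assoc c, ← he]
    simp only [Algebra.algebraMap_self, RingHom.id_apply]
    ring

/-- An algebraic homomorphism ties the image of most multiples of `P` to these multiples. -/
lemma Alg.tied {φ : Pt A₀ B₀ K →+ Pt A B K} (h : Alg φ) {P : Pt A₀ B₀ K} (hP : NT P) :
    ∃ N : ℤ, N ≠ 0 ∧ ∀ᶠ a in cofinite, N ∣ a → Tc (a • P) (φ (a • P)) := by
  by_cases hT : NT (φ P)
  swap
  · obtain ⟨N, h1, h2⟩ : ∃ N : ℤ, N • φ P = 0 ∧ N ≠ 0 := by simpa only [NT, not_forall, exists_prop] using hT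
    refine ⟨N, h2, .of_forall ?_⟩
    rintro _ ⟨b, rfl⟩
    rw [map_zsmul, mul_comm, mul_smul b N (φ P), h1, smul_zero]
    exact zero_mem _
  obtain ⟨G, hG⟩ := h
  have hZ := eventually_cofinite.1 hG
  have inj : Function.Injective fun a : ℤ => a • P := fun a b hab =>
    sub_eq_zero.1 (hP _ (by rw [sub_smul]; exact sub_eq_zero.2 hab))
  have h1 : ∀ᶠ z : Pt A₀ B₀ K in cofinite, z ≠ 0 ∧ ∀ w ∈ hZ.toFinset, z ≠ w ∧ z ≠ -w :=
    (eventually_cofinite_ne 0).and ((eventually_all_finset _).2 fun w _ =>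
      (eventually_cofinite_ne w).and (eventually_cofinite_ne (-w)))
  have ev : ∀ z : Pt A₀ B₀ K, z ≠ 0 → ∀ j, MvPolynomial.aeval ![X z, Y z]
      ((∏ w ∈ hZ.toFinset.erase 0, (MvPolynomial.X 0 - MvPolynomial.C (X w))) *
        MvPolynomial.aeval ![MvPolynomial.X 0, MvPolynomial.X 1, 1] (G j) :
          MvPolynomial (Fin 2) K) =
      (∏ w ∈ hZ.toFinset.erase 0, (X z - X w)) * MvPolynomial.eval (rep z) (G j) := by
    intro z hz j
    rw [map_mul, map_prod, MvPolynomial.comp_aeval_apply, ← MvPolynomial.coe_aeval_eq_eval]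
    congr 1
    · simp
    · refine congrArg (fun r => MvPolynomial.aeval r (G j)) (funext fun i => ?_)
      rw [rep_ne hz]
      fin_cases i <;> simp
  refine ⟨1, one_ne_zero, ?_⟩
  filter_upwards [inj.tendsto_cofinite.eventually (hG.and h1)] with a ⟨⟨c, c0, hc⟩, h2, h3⟩ _
  have a0 : a ≠ 0 := fun h => h2 (by rw [h, zero_smul])
  refine AddSubgroup.subset_closure ⟨by rw [map_zsmul]; exact nt_zsmul hT a0, _,
    fun m hm => ?_, _, mul_ne_zero (prod_ne_zero_iff.2 fun w hw => sub_ne_zero.2 fun h4 => ?_) c0,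
    fun j => by rw [ev _ h2, hc, mul_assoc]⟩
  · have h4 : m • a • P ≠ 0 := nt_ne (nt_zsmul hP a0) hm
    by_cases h5 : m • a • P ∈ hZ.toFinset
    · exact ⟨0, fun j => by
        rw [ev _ h4, prod_eq_zero (mem_erase.2 ⟨h4, h5⟩) (sub_self _), zero_mul, zero_mul]⟩
    · obtain ⟨c, -, hc⟩ := not_not.1 (mt hZ.mem_toFinset.2 h5)
      exact ⟨_, fun j => by rw [ev _ h4, hc, map_zsmul, ← mul_assoc]⟩
  · obtain ⟨h5, h6⟩ := mem_erase.1 hw
    exact (eq_or_neg h2 h5 h4).elim (h3 w h6).1 (h3 w h6).2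

/-- The polynomials `G` represent the function `f` at the multiples of `P`. -/
def Rep (P : Pt A₀ B₀ K) (f : (Fin k → ℤ) → Pt A B K) (G : Fin 3 → MvPolynomial (Fin k × Fin 2) K) :
    Prop :=
  ∀ m : Fin k → ℤ, (∀ l, m l ≠ 0) → ∃ c : K, ∀ j,
    MvPolynomial.aeval (xy fun l => m l • P) (G j) = c * rep (f m) j

/-- The function has a representation that does not degenerate at the base point. -/
def Good (P : Pt A₀ B₀ K) (f : (Fin k → ℤ) → Pt A B K) : Prop :=
  ∃ G, Rep P f G ∧ ∃ c : K, c ≠ 0 ∧ ∀ j,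
    MvPolynomial.aeval (xy fun _ => P) (G j) = c * rep (f fun _ => 1) j

lemma good_const (P : Pt A₀ B₀ K) (Q : Pt A B K) : Good P fun _ : Fin k → ℤ => Q :=
  ⟨fun j => MvPolynomial.C (rep Q j), fun _ _ => ⟨1, fun j => by simp⟩, 1, one_ne_zero,
    fun j => by simp⟩

lemma Tied.good {P : Pt A₀ B₀ K} {T : Pt A B K} (h : Tied P T) (l : Fin k) :
    Good P fun m => m l • T := by
  obtain ⟨-, G, h2, c, h3, h4⟩ := h
  have e : ∀ (z : Fin k → Pt A₀ B₀ K) j, MvPolynomial.aeval (xy z)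
      (MvPolynomial.rename (fun i => (l, i)) (G j)) =
      MvPolynomial.aeval ![X (z l), Y (z l)] (G j) := fun z j => by
    rw [MvPolynomial.aeval_rename]
    rfl
  refine ⟨fun j => MvPolynomial.rename (fun i => (l, i)) (G j), fun m hm => ?_, c, h3,
    fun j => by simp only [e, h4, one_smul]⟩
  simpa only [e] using h2 (m l) (hm l)

lemma Good.add {P : Pt A₀ B₀ K} {f f' : (Fin k → ℤ) → Pt A B K} (h : Good P f) (h' : Good P f')
    (h1 : (f fun _ => 1) ≠ 0) (h2 : (f' fun _ => 1) ≠ 0) (h3 : (f fun _ => 1) ≠ f' fun _ => 1) :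
    Good P fun m => f m + f' m := by
  obtain ⟨T, hT⟩ := r_ADD
  obtain ⟨G, hG, c, hc, hGc⟩ := h
  obtain ⟨G', hG', c', hc', hGc'⟩ := h'
  have sub : ∀ (z : Fin k → Pt A₀ B₀ K) (U U' : Pt A B K)
      (a a' : K), (∀ j, MvPolynomial.aeval (xy z) (G j) = a * rep U j) →
      (∀ j, MvPolynomial.aeval (xy z) (G' j) = a' * rep U' j) → ∀ j,
      MvPolynomial.aeval (xy z) (MvPolynomial.aeval
        (fun s : Fin 2 × Fin 3 => ![G s.2, G' s.2] s.1) (T j) : MvPolynomial (Fin k × Fin 2) K) =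
      MvPolynomial.aeval (fun s : Fin 2 × Fin 3 => ![a * rep U s.2, a' * rep U' s.2] s.1) (T j) := by
    intro z U U' a a' e e' j
    have := MvPolynomial.comp_aeval_apply (fun s : Fin 2 × Fin 3 => ![G s.2, G' s.2] s.1)
      (MvPolynomial.aeval (xy z) : MvPolynomial (Fin k × Fin 2) K →ₐ[K] K).toRingHom.toIntAlgHom
      (T j)
    refine this.trans ?_
    congr 2
    funext s
    obtain ⟨i, s⟩ := s
    fin_cases i
    · exact e s
    · exact e' s
  refine ⟨fun j => MvPolynomial.aeval (fun s : Fin 2 × Fin 3 => ![G s.2, G' s.2] s.1) (T j),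
    fun m hm => ?_, ?_⟩
  · obtain ⟨a, ha⟩ := hG m hm
    obtain ⟨a', ha'⟩ := hG' m hm
    obtain ⟨e, he, -⟩ := hT A B K (f m) (f' m) a a'
    exact ⟨e, fun j => by rw [sub _ _ _ a a' ha ha', he]⟩
  · obtain ⟨e, he, he0⟩ := hT A B K (f fun _ => 1) (f' fun _ => 1) c c'
    exact ⟨e, he0 hc hc' h1 h2 h3, fun j => by rw [sub _ _ _ c c' hGc hGc', he]⟩

lemma Tied.step {P : Pt A₀ B₀ K} {T : Pt A B K} (hT : Tied P T) (l : Fin k)
    {f : (Fin k → ℤ) → Pt A B K} (h : ∀ Q, Good P fun m => Q + f m) (Q : Pt A B K) :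
    Good P fun m => Q + (f m + m l • T) := by
  obtain ⟨n, hn⟩ : ∃ n : ℤ, ∀ m : ℤ, n < m → Q + (f fun _ => 1) + m • T ≠ 0 := by
    by_cases h0 : ∃ n : ℤ, Q + (f fun _ => 1) + n • T = 0
    · obtain ⟨n, h0⟩ := h0
      refine ⟨n, fun m hm h1 => ?_⟩
      have := hT.1 (m - n) (by rw [sub_smul, sub_eq_zero]; exact add_left_cancel (h1.trans h0.symm))
      omega
    · exact ⟨0, fun m _ h1 => h0 ⟨m, h1⟩⟩
  obtain ⟨a, a0, ha⟩ : ∃ a : ℤ, 0 < a ∧ n + 1 < a :=
    ⟨|n| + 2, by positivity, by linarith [le_abs_self n]⟩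
  have g1 := (h (Q + a • T)).add (hT.good l) (fun e => hn a (by omega) (by rw [← e]; abel))
    (nt_ne hT.1 one_ne_zero) fun e => hn (a - 1) (by omega) (by
      rw [← sub_eq_zero.2 e, sub_smul]; abel)
  have g2 := g1.add (good_const P (-(a • T)))
    (fun e => hn (a + 1) (by omega) (by rw [← e, add_smul]; abel))
    (neg_ne_zero.2 (nt_ne hT.1 a0.ne')) fun e => hn (a + 1 + a) (by omega) (by
      rw [← sub_eq_zero.2 e, add_smul, add_smul]; abel)
  have e : (fun m : Fin k → ℤ => Q + a • T + f m + m l • T + -(a • T)) =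
      fun m => Q + (f m + m l • T) := funext fun m => by abel
  exact e ▸ g2

lemma Tc.step {P : Pt A₀ B₀ K} {T : Pt A B K} (hT : Tc P T) (l : Fin k) :
    ∀ f : (Fin k → ℤ) → Pt A B K, (∀ Q, Good P fun m => Q + f m) →
      ∀ Q, Good P fun m => Q + (f m + m l • T) := by
  induction hT using AddSubgroup.closure_induction'' with
  | mem T h => exact fun f => Tied.step h l
  | neg_mem T h => exact fun f => (Tied.neg h).step l
  | zero => simp
  | add T T' _ _ ih ih' => simpa only [smul_add, add_assoc] using fun f hf => ih' _ (ih f hf)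

lemma good_sum {P : Pt A₀ B₀ K} {T : Fin k → Pt A B K} (hT : ∀ l, Tc P (T l)) (Q : Pt A B K) :
    Good P fun m => Q + ∑ l, m l • T l := by
  have h : ∀ t : Finset (Fin k), ∀ Q, Good P fun m => Q + ∑ l ∈ t, m l • T l := fun t => by
    induction t using Finset.induction_on with
    | empty => simpa using good_const P
    | insert l t hl ih => simpa only [sum_insert hl, add_comm (_ • T l)] using (hT l).step l _ ih
  exact h univ Q

/-- A group that is finite modulo a finitely generated group is a finite union of cosets. -/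
lemma cover {G : Type} [AddCommGroup G] (Γ : AddSubgroup G) {s : ℕ} (T₀ : Fin s → G) {a : ℤ}
    (ha : a ≠ 0) (h : (AddSubgroup.closure (Set.range T₀)).relIndex Γ ≠ 0) :
    ∃ (k : ℕ) (T : Fin k → G) (κ : Type) (_ : Finite κ) (R : κ → G),
      (∀ l, T l ∈ AddSubgroup.closure (Set.range fun j => a • T₀ j)) ∧
      (Γ : Set G) = ⋃ c, Set.range fun m : Fin k → ℤ => R c + ∑ l, m l • T l := by
  set Λ := AddSubgroup.closure (Set.range fun j => a • T₀ j) with hΛ
  have h1 : Λ.relIndex (AddSubgroup.closure (Set.range T₀)) ≠ 0 := by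
    have : AddGroup.FG (AddSubgroup.closure (Set.range T₀)) :=
      AddGroup.closure_finite_fg _
    refine AddSubgroup.index_ne_zero_of_finite (hH := ?_)
    refine AddCommGroup.finite_of_fg_isAddTorsion _ fun x => ?_
    obtain ⟨⟨x, hx⟩, rfl⟩ := QuotientAddGroup.mk_surjective x
    refine isOfFinAddOrder_iff_zsmul_eq_zero.2 ⟨a, ha, ?_⟩
    rw [← QuotientAddGroup.mk_zsmul, QuotientAddGroup.eq_zero_iff]
    change a • x ∈ Λ
    induction hx using AddSubgroup.closure_induction with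
    | mem x hx => obtain ⟨j, rfl⟩ := hx; exact AddSubgroup.subset_closure ⟨j, rfl⟩
    | zero => simp
    | add x y _ _ hx hy => rw [smul_add]; exact add_mem hx hy
    | neg x _ hx => rw [smul_neg]; exact neg_mem hx
  have h2 : (Λ.addSubgroupOf Γ).FiniteIndex := ⟨AddSubgroup.relIndex_ne_zero_trans h1 h⟩
  have h3 : (Λ ⊓ Γ).toIntSubmodule.FG := by
    have h4 : Λ.toIntSubmodule.FG := by
      rw [hΛ, ← Submodule.span_int_eq_addSubgroupClosure]
      exact Submodule.fg_span (Set.finite_range _)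
    have := isNoetherian_of_fg_of_noetherian _ h4
    exact isNoetherian_submodule.1 this _ fun x hx => hx.1
  obtain ⟨k, T, hT⟩ := Submodule.fg_iff_exists_fin_generating_family.1 h3
  have h5 : ∀ x, x ∈ Λ ⊓ Γ ↔ ∃ m : Fin k → ℤ, ∑ l, m l • T l = x := fun x => by
    rw [← Submodule.mem_span_range_iff_exists_fun, hT]
    rfl
  have h6 : ∀ l, T l ∈ Λ ⊓ Γ := fun l => by
    have : T l ∈ Submodule.span ℤ (Set.range T) := Submodule.subset_span ⟨l, rfl⟩
    rwa [hT] at this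
  refine ⟨k, T, Γ ⧸ Λ.addSubgroupOf Γ, AddSubgroup.finite_quotient_of_finiteIndex,
    fun c => (c.out : Γ), fun l => (h6 l).1, Set.ext fun Q => ⟨fun hQ => ?_, fun hQ => ?_⟩⟩
  · obtain ⟨⟨x, hx⟩, e⟩ := QuotientAddGroup.mk_out_eq_add (Λ.addSubgroupOf Γ) ⟨Q, hQ⟩
    obtain ⟨m, hm⟩ := (h5 (-x)).1 (neg_mem ⟨hx, x.2⟩)
    refine Set.mem_iUnion.2 ⟨QuotientAddGroup.mk ⟨Q, hQ⟩, m, ?_⟩
    simp [e, hm]
  · obtain ⟨c, m, rfl⟩ := Set.mem_iUnion.1 hQ
    exact Γ.add_mem c.out.2 ((h5 _).2 ⟨m, rfl⟩).2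

end Pool.Agent.P.MP_ab3ecb_nt.AN
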