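import Pool.Agent.P.MP_ab3ecb_nt.AM.Defs

/-!
Closed subvarieties of a product of curves `y ^ 2 = x ^ 3 + A i * x + B i`, algebraic
homomorphisms, and closures of sets of rational points in the product of the points over the
completions.
-/

namespace Pool.Agent.P.MP_ab3ecb_nt.AN

open NumberField IsDedekindDomain Pool.Agent.P.MP_ab3ecb_nt.TK
open Pool.Agent.P.MP_ab3ecb_nt.AM (rep)
open scoped Classical

/-- The set `C` is a coset of a subgroup. -/
def Cos {G : Type} [AddGroup G] (C : Set G) : Prop :=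
  ∃ (γ : G) (H : AddSubgroup G), C = {Q | Q - γ ∈ H}

variable {K : Type} [Field K] {n : ℕ} {A B : Fin n → 𝓞 K}

/-- The homomorphism `φ` is given by polynomials in the projective coordinates at all but finitely
many points. -/
def Alg {A₀ B₀ A₁ B₁ : 𝓞 K} (φ : Pt A₀ B₀ K →+ Pt A₁ B₁ K) : Prop :=
  ∃ G : Fin 3 → MvPolynomial (Fin 3) K, ∀ᶠ z in Filter.cofinite, ∃ c : K, c ≠ 0 ∧
    ∀ j, MvPolynomial.eval (rep z) (G j) = c * rep (φ z) j

/-- All polynomials of `I` vanish at the projective coordinates of the points `a 1, …, a n`. -/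
def On (I : Set (MvPolynomial (Fin n × Fin 3) K)) {L : Type} [Field L] [Algebra K L]
    (a : ∀ i, Pt (A i) (B i) L) : Prop :=
  ∀ F ∈ I, MvPolynomial.aeval (fun s => rep (a s.1) s.2) F = 0

variable [NumberField K]

/-- The family `a` lies in the closure of the diagonal image of the set `T` of rational points. -/
def InCl (T : Set (∀ i, Pt (A i) (B i) K)) {S : Set (HeightOneSpectrum (𝓞 K))}
    (a : ∀ (v : S) (i : Fin n), Loc (A i) (B i) v.1) : Prop :=
  (fun v i => co (a v i)) ∈ closure ((fun Q (v : S) i => co (loc v.1 (Q i))) '' T)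

end Pool.Agent.P.MP_ab3ecb_nt.AN
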