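import Pool.Agent.P.MP_ab3ecb_nt.AN.Alg

/-! The coset induction for a product of curves. -/

set_option autoImplicit false
set_option linter.unusedSectionVars false

namespace Pool.Agent.P.MP_ab3ecb_nt.AN

open Filter Topology NumberField IsDedekindDomain Finset Pool.Agent.P.MP_ab3ecb_nt.TK
open Pool.Agent.P.MP_ab3ecb_nt.AM hiding On InCl evr pt Gen Lim Apx Con on_iff evr_bc Lim.apx
  Apx.range
open CLOx
open scoped Classical NNReal

/-- A limit of multiples of the coordinate vectors is a multiple of the coordinate vector. -/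
lemma prj {R : Type} [CommRing R] [Algebra.IsIntegral ℤ R] {A B : R} {L ι : Type}
    [NontriviallyNormedField L] [Algebra R L] [IsUltrametricDist L] [DecidableEq L] {l : Filter ι}
    [l.NeBot] {P : ι → Pt A B L} {Q : Pt A B L} {v : ι → Fin 3 → L} {w : Fin 3 → L}
    (h : ToO l fun i => P i - Q) (hv : ∀ j, Tendsto (fun i => v i j) l (𝓝 (w j)))
    (hc : ∀ᶠ i in l, ∃ c, ∀ j, v i j = c * rep (P i) j) : ∃ c, ∀ j, w j = c * rep Q j := by
  by_cases hQ : Q = 0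
  · simp only [hQ, sub_zero] at h ⊢
    have h1 : Tendsto (fun i => Z (P i)) l (𝓝 0) := by
      rw [NormedAddGroup.tendsto_nhds_zero]
      intro ε hε
      filter_upwards [toO_iff.1 h (.mk (ε / 2) (by positivity)) (half_pos hε)] with i hi
      exact lt_of_le_of_lt (show ‖Z (P i)‖ ≤ ε / 2 from hi.2) (half_lt_self hε)
    have h2 := toO_iff.1 h 1 one_pos
    have h3 : Tendsto (fun i => 1 / Y (P i)) l (𝓝 0) := by
      rw [tendsto_zero_iff_norm_tendsto_zero]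
      have := h1.norm.pow 3
      rw [norm_zero, zero_pow three_ne_zero] at this
      refine this.congr' (h2.mono fun i hi => ?_)
      rcases hi.1 with h0 | h0
      · simp [h0]
      · exact (congrArg NNReal.toReal (Lb.FGx.v_w h0)).symm
    have key : ∀ᶠ i in l, v i 1 * Z (P i) = v i 0 ∧ v i 1 * (1 / Y (P i)) = v i 2 := by
      filter_upwards [hc, h2] with i ⟨c, hi⟩ h4
      rcases h4.1 with h0 | h0
      · simp [hi, h0]
      · have h5 : P i ≠ 0 := fun h => by simp [h] at h0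
        have h6 := Y_ne h0
        simp only [hi, rep_ne h5, Z, Matrix.cons_val_zero, Matrix.cons_val_one, Matrix.cons_val]
        constructor <;> field_simp
    have a0 := tendsto_nhds_unique (hv 0) (((hv 1).mul h1).congr' (key.mono fun _ h => h.1))
    have a2 := tendsto_nhds_unique (hv 2) (((hv 1).mul h3).congr' (key.mono fun _ h => h.2))
    refine ⟨w 1, fun j => ?_⟩
    fin_cases j <;> simp [a0, a2]
  · obtain ⟨-, h1, h2, h3⟩ := lb (toA_const l hQ) h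
    simp only [add_sub_cancel] at h1 h2 h3
    have key : ∀ᶠ i in l, v i 2 * X (P i) = v i 0 ∧ v i 2 * Y (P i) = v i 1 := by
      filter_upwards [hc, h1] with i ⟨c, hi⟩ h4
      simp [hi, rep_ne h4]
    have a0 := tendsto_nhds_unique (hv 0) (((hv 2).mul h2).congr' (key.mono fun _ h => h.1))
    have a1 := tendsto_nhds_unique (hv 1) (((hv 2).mul h3).congr' (key.mono fun _ h => h.2))
    refine ⟨w 2, fun j => ?_⟩
    rw [rep_ne hQ]
    fin_cases j <;> simp [a0, a1]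

variable {K : Type} [Field K] [NumberField K] {A₀ B₀ : 𝓞 K} {n k k' : ℕ} {A B : Fin n → 𝓞 K}

/-- The points of the product. -/
abbrev Pts (A B : Fin n → 𝓞 K) (L : Type) [Field L] [Algebra K L] : Type :=
  ∀ i, Pt (A i) (B i) L

/-- The value of a form at a vector of points. -/
noncomputable def evr {L : Type} [Field L] [Algebra K L] (F : MvPolynomial (Fin n × Fin 3) K)
    (a : Pts A B L) : L :=
  MvPolynomial.aeval (fun s => rep (a s.1) s.2) F

lemma evr_bc {L : Type} [Field L] [Algebra K L] (F : MvPolynomial (Fin n × Fin 3) K)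
    (a : Pts A B K) : evr F (fun i => bc L (a i)) = algebraMap K L (evr F a) := by
  simp only [evr, rep_bc]
  exact (MvPolynomial.comp_aeval_apply _ (Algebra.ofId K L) F).symm

/-- The point `Q + ∑ m l • T l`. -/
noncomputable def pt (T : Fin k → Pts A B K) (Q : Pts A B K) (m : Fin k → ℤ) : Pts A B K :=
  Q + ∑ l, m l • T l

lemma pt_apply (T : Fin k → Pts A B K) (Q : Pts A B K) (m : Fin k → ℤ) (i : Fin n) :
    pt T Q m i = Q i + ∑ l, m l • T l i := by simp [pt]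

/-- The polynomial `g` vanishes at the first coordinates if `F` vanishes at the values of `G`. -/
def Gen (A₀ B₀ : 𝓞 K) (F : MvPolynomial (Fin n × Fin 3) K)
    (G : Fin n → Fin 3 → MvPolynomial (Fin k × Fin 2) K) (g : MvPolynomial (Fin k) (𝓞 K))
    (L : Type) [Field L] [Algebra K L] : Prop :=
  ∀ z : Fin k → Pt A₀ B₀ L, (∀ l, z l ≠ 0) →
    MvPolynomial.aeval (fun s : Fin n × Fin 3 => MvPolynomial.aeval (xy z) (G s.1 s.2)) F = 0 →
    MvPolynomial.aeval (fun l => X (z l)) g = 0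

lemma gen (hD : 4 * A₀ ^ 3 + 27 * B₀ ^ 2 ≠ 0) {P : Pt A₀ B₀ K} (hP : NT P)
    {F : MvPolynomial (Fin n × Fin 3) K} (hF : Hom F) {T : Fin k → Pts A B K}
    (hT : ∀ l i, Tc P (T l i)) {Q : Pts A B K} (hne : evr F (pt T Q fun _ => 1) ≠ 0) :
    ∃ (G : Fin n → Fin 3 → MvPolynomial (Fin k × Fin 2) K) (g : MvPolynomial (Fin k) (𝓞 K)),
      g ≠ 0 ∧ (∀ i, Rep P (fun m => pt T Q m i) (G i)) ∧
      ∀ (L : Type) [Field L] [Algebra K L], Gen A₀ B₀ F G g L := by
  obtain ⟨d, hd⟩ := hF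
  choose R hR1 c hc hR2 using fun i => good_sum (fun l => hT l i) (Q i)
  simp only [← pt_apply] at hR1 hR2
  have hP0 : P ≠ 0 := by simpa using nt_ne hP one_ne_zero
  have hH : MvPolynomial.aeval (xy fun _ : Fin k => P)
      (MvPolynomial.aeval (fun s : Fin n × Fin 3 => R s.1 s.2) F) ≠ 0 := by
    rw [MvPolynomial.comp_aeval_apply]
    simp only [hR2]
    rw [GENx.scale hd c fun s => rep (pt T Q (fun _ => 1) s.1) s.2]
    exact mul_ne_zero (Finset.prod_ne_zero_iff.2 fun i _ => pow_ne_zero _ (hc i)) hne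
  obtain ⟨g, hg, hg2⟩ := r_NORM K A₀ B₀ hD k _ (fun _ => P) (fun _ => hP0) hH
  obtain ⟨g', a, ha, hg'⟩ := GENx.clear g
  refine ⟨R, g', fun h0 => ?_, hR1, fun L _ _ z hz h0 => ?_⟩
  · rw [h0, map_zero] at hg'
    exact mul_ne_zero hg (MvPolynomial.C_ne_zero.2 ha) hg'.symm
  · rw [← MvPolynomial.aeval_map_algebraMap K, hg', map_mul,
      hg2 L z hz (by rwa [MvPolynomial.comp_aeval_apply]), zero_mul]

lemma xy_bc {L : Type} [Field L] [Algebra K L] (z : Fin k → Pt A₀ B₀ K)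
    (G : MvPolynomial (Fin k × Fin 2) K) :
    MvPolynomial.aeval (xy fun l => bc L (z l)) G =
      algebraMap K L (MvPolynomial.aeval (xy z) G) := by
  refine Eq.trans ?_ (MvPolynomial.comp_aeval_apply _ (Algebra.ofId K L) G).symm
  refine congrArg (fun r => MvPolynomial.aeval r G) (funext fun ⟨l, j⟩ => ?_)
  fin_cases j <;> simp [xy, Algebra.ofId_apply]

lemma hyp (hD : 4 * A₀ ^ 3 + 27 * B₀ ^ 2 ≠ 0) {P : Pt A₀ B₀ K}
    {F : MvPolynomial (Fin n × Fin 3) K} (hF : Hom F) {f : (Fin k → ℤ) → Pts A B K}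
    {G : Fin n → Fin 3 → MvPolynomial (Fin k × Fin 2) K} {g : MvPolynomial (Fin k) (𝓞 K)}
    (hR : ∀ i, Rep P (fun m => f m i) (G i)) {v : Pl K} (hG : Gen A₀ B₀ F G g (Kv v))
    {a : ∀ i, Loc (A i) (B i) v} (ha : evr F a = 0) {U : Ultrafilter (Fin k → ℤ)}
    (hl : ∀ i, ToO U fun m => loc v (f m i) - a i) (ρ : ℝ) : ∀ᶠ m in U, Cls (nv v) P g ρ m := by
  choose z hz using fun l : Fin k =>
    r_ULIM A₀ B₀ (Kv v) (Fin k → ℤ) hD U fun m => m l • bc (Kv v) P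
  simp only [← cls_bc (ab := nv v) (ab' := fun x : Kv v => ‖x‖) (fun _ => rfl)]
  by_cases h0 : ∃ l, z l = 0
  · obtain ⟨l, h0⟩ := h0
    filter_upwards [hz l ρ] with m hm
    rw [h0, sub_zero] at hm
    exact .inl ⟨l, hm⟩
  push Not at h0
  have hA := fun l => lb (toA_const _ (h0 l)) (hz l)
  simp only [add_sub_cancel] at hA
  have h2 : Tendsto (fun (m : Fin k → ℤ) l => X (m l • bc (Kv v) P)) U (𝓝 fun l => X (z l)) :=
    tendsto_pi_nhds.2 fun l => (hA l).2.2.1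
  have h5 : Tendsto (fun m : Fin k → ℤ => xy fun l => m l • bc (Kv v) P) U (𝓝 (xy z)) :=
    tendsto_pi_nhds.2 fun ⟨l, j⟩ => by
      fin_cases j
      exacts [(hA l).2.2.1, (hA l).2.2.2]
  have h6 : ∀ i, ∃ c, ∀ j, MvPolynomial.aeval (xy z) (G i j) = c * rep (a i) j := fun i => by
    refine prj (L := Kv v) (P := fun m => loc v (f m i)) (hl i)
      (v := fun m j => MvPolynomial.aeval (xy fun l => m l • bc (Kv v) P) (G i j)) (fun j => ?_) ?_
    · simp only [MvPolynomial.aeval_def, MvPolynomial.eval₂_eq_eval_map]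
      exact ((MvPolynomial.continuous_eval _).tendsto _).comp h5
    · filter_upwards [eventually_all.2 fun l => (hA l).2.1] with m hm
      obtain ⟨c, hc⟩ := hR i m fun l h => hm l (by rw [h, zero_smul])
      refine ⟨algebraMap K _ c, fun j => ?_⟩
      simp only [← map_zsmul, xy_bc, hc, map_mul, loc, rep_bc]
  choose c hc using h6
  obtain ⟨d, hd⟩ := hF
  have h3 : Continuous fun x : Fin k → Kv v => ρ * ‖MvPolynomial.aeval x g‖ := by
    simp only [MvPolynomial.aeval_def, MvPolynomial.eval₂_eq_eval_map]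
    exact (MvPolynomial.continuous_eval _).norm.const_mul ρ
  have h4 := (h3.tendsto _).comp h2
  rw [hG z h0 (by
    simp only [hc]
    rw [GENx.scale hd c fun s => rep (a s.1) s.2]
    exact mul_eq_zero_of_right _ ha), norm_zero, mul_zero] at h4
  exact (h4.eventually_le_const one_pos).mono fun m hm => .inr hm

variable {S : Set (Pl K)} {I : Set (MvPolynomial (Fin n × Fin 3) K)}

/-- The points `f m` tend to `a` at all places of `S`. -/
def Lim {ι : Type} (l : Filter ι) (f : ι → Pts A B K)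
    (a : ∀ (v : S) (i : Fin n), Loc (A i) (B i) v.1) : Prop :=
  ∀ v i, ToO l fun m => loc v.1 (f m i) - a v i

/-- The family `a` is a limit of points of `T`. -/
def Apx (T : Set (Pts A B K)) (a : ∀ (v : S) (i : Fin n), Loc (A i) (B i) v.1) : Prop :=
  ∃ U : Ultrafilter (Pts A B K), T ∈ U ∧ Lim U id a

lemma Lim.apx {ι : Type} {U : Ultrafilter ι} {f : ι → Pts A B K}
    {a : ∀ (v : S) (i : Fin n), Loc (A i) (B i) v.1} (h : Lim U f a) {T : Set (Pts A B K)}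
    (hT : ∀ᶠ m in U, f m ∈ T) : Apx T a :=
  ⟨U.map f, hT, fun v i r => h v i r⟩

lemma Apx.range {ι : Type} {f : ι → Pts A B K} {a : ∀ (v : S) (i : Fin n), Loc (A i) (B i) v.1}
    (h : Apx (Set.range f) a) : ∃ U : Ultrafilter ι, Lim U f a := by
  obtain ⟨U, h1, h2⟩ := h
  obtain ⟨_, m0, -⟩ := U.nonempty_of_mem h1
  have : Nonempty ι := ⟨m0⟩
  refine ⟨U.map (Function.invFun f), fun v i r => ?_⟩
  rw [Ultrafilter.coe_map, eventually_map]
  filter_upwards [h1, h2 v i r] with Q hQ h3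
  rwa [Function.invFun_eq hQ]

lemma clo (T : Set (Pts A B K)) (a : ∀ (v : S) (i : Fin n), Loc (A i) (B i) v.1) :
    InCl T a ↔ Apx T a := by
  constructor
  · intro hc
    rw [InCl, mem_closure_iff_clusterPt, ClusterPt, ← map_principal, ← Filter.push_pull',
      map_neBot_iff] at hc
    have hU := le_inf_iff.1 (Ultrafilter.of_le (comap (fun (Q : Pts A B K) (v : S) i =>
      co (loc v.1 (Q i))) (𝓝 fun v i => co (a v i)) ⊓ 𝓟 T))
    refine ⟨_, le_principal_iff.1 hU.2, fun v i => ?_⟩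
    have h1 := tendsto_pi_nhds.1 (tendsto_pi_nhds.1 (tendsto_iff_comap.2 hU.1) v) i
    exact toO_of_co (L := Kv v.1) (P := fun Q : Pts A B K => loc v.1 (Q i)) (T := a v i) h1
  · rintro ⟨U, h1, h2⟩
    refine mem_closure_of_tendsto (b := (U : Filter _)) (f := fun (Q : Pts A B K) (v : S) i =>
      co (loc v.1 (Q i))) (tendsto_pi_nhds.2 fun v => tendsto_pi_nhds.2 fun i => ?_) ?_
    · exact r_COC (A i) (B i) (Kv v.1) _ U (fun Q : Pts A B K => loc v.1 (Q i)) (a v i) (h2 v i)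
    filter_upwards [h1] with Q hQ using Set.mem_image_of_mem _ hQ

lemma rel (hD : 4 * A₀ ^ 3 + 27 * B₀ ^ 2 ≠ 0) {P : Pt A₀ B₀ K} (hP : NT P) (hS : Sᶜ.Finite)
    {F : MvPolynomial (Fin n × Fin 3) K} (hF : Hom F) {T : Fin k → Pts A B K}
    (hT : ∀ l i, Tc P (T l i)) {Q : Pts A B K} (h1 : evr F (pt T Q fun _ => 1) ≠ 0) :
    ∃ E : Set ((Fin k → ℤ) × ℤ), E.Finite ∧ (∀ e ∈ E, e.1 ≠ 0) ∧
      ∀ (a : ∀ (v : S) (i : Fin n), Loc (A i) (B i) v.1) (U : Ultrafilter (Fin k → ℤ)),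
        (∀ v, evr F (a v) = 0) → Lim U (pt T Q) a →
        ∃ e ∈ E, ∀ N : ℕ, 0 < N → ∀ᶠ m : Fin k → ℤ in U, (N : ℤ) ∣ ∑ l, e.1 l * m l - e.2 := by
  obtain ⟨G, g, hg, hR, hG⟩ := gen hD hP hF hT h1
  obtain ⟨C, hC⟩ := r_KEY K A₀ B₀ hD P hP S hS k g hg
  refine ⟨{e | e.1 ≠ 0 ∧ (e.1 ≠ 0 ∨ e.2 ≠ 0) ∧ (∀ l, |e.1 l| ≤ C) ∧ |e.2| ≤ C},
    (RELx.box k C).subset fun e he => he.2, fun e he => he.1, fun a U ha hU => ?_⟩
  obtain ⟨e, he, h2⟩ := RELx.one (RELx.box k C)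
    (fun e N => ∀ᶠ m : Fin k → ℤ in U, (N : ℤ) ∣ ∑ l, e.1 l * m l - e.2)
    (fun t N N' h2 h3 => h3.mono fun m hm => (Int.natCast_dvd_natCast.2 h2).trans hm)
    fun N hN => by
      obtain ⟨M, hM, h2, h3⟩ := hC N hN
      obtain ⟨r, hr⟩ := RELx.res U hM
      obtain ⟨b, c, h4, h5, h6, h7⟩ := h3 r fun v hv ρ =>
        (hr.and (hyp hD hF hR (hG _) (ha ⟨v, hv⟩) (hU ⟨v, hv⟩) ρ)).exists
      refine ⟨(b, c), ⟨h4, h5, h6⟩, hr.mono fun m hm => (Int.natCast_dvd_natCast.2 h2).trans ?_⟩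
      have h8 : (M : ℤ) ∣ ∑ l, b l * (m l - r l) := dvd_sum fun l _ => (hm l).mul_left _
      have h9 := h7.add h8
      simp only [mul_sub, sum_sub_distrib] at h9
      rwa [show ∑ l, b l * r l - c + (∑ l, b l * m l - ∑ l, b l * r l) = ∑ l, b l * m l - c by
        ring] at h9
  refine ⟨e, ⟨fun h0 => ?_, he⟩, h2⟩
  have hc : e.2 ≠ 0 := he.1.resolve_left (not_not.2 h0)
  obtain ⟨m, hm⟩ := (h2 (e.2.natAbs + 1) (Nat.succ_pos _)).exists
  simp only [h0, Pi.zero_apply, zero_mul, sum_const_zero, zero_sub, dvd_neg] at hm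
  have h3 := Nat.le_of_dvd (Int.natAbs_pos.2 hc) (Int.natCast_dvd.1 hm)
  omega

/-- The conclusion of the theorem for the set `C` of rational points. -/
def Con (I : Set (MvPolynomial (Fin n × Fin 3) K)) (S : Set (Pl K)) (C : Set (Pts A B K)) : Prop :=
  ∃ T : Set (Pts A B K × AddSubgroup (Pts A B K)), T.Finite ∧
    (∀ t ∈ T, ∀ h ∈ t.2, t.1 + h ∈ C ∧ On I (t.1 + h)) ∧
    ∀ a : ∀ (v : S) (i : Fin n), Loc (A i) (B i) v.1, (∀ v, On I (a v)) → Apx C a →
      ∃ t ∈ T, Apx {Q | Q - t.1 ∈ t.2} a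

lemma pt_add (T : Fin k → Pts A B K) (Q : Pts A B K) (m m' : Fin k → ℤ) :
    pt T (pt T Q m) m' = pt T Q fun l => m l + m' l := by
  simp only [pt, sum_add_distrib, add_smul, add_assoc]

lemma pt_comp (T : Fin k → Pts A B K) (Q : Pts A B K) (m : Fin k → ℤ) (H : Fin k → Fin k' → ℤ)
    (w : Fin k' → ℤ) :
    pt (fun j => ∑ l, H l j • T l) (pt T Q m) w = pt T Q fun l => m l + ∑ j, H l j * w j := by
  simp only [pt, sum_add_distrib, add_smul, add_assoc, smul_sum, sum_smul, smul_smul, mul_comm]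
  rw [sum_comm]

lemma con_all {T : Fin k → Pts A B K} {Q : Pts A B K} (h : ∀ m, On I (pt T Q m)) :
    Con I S (Set.range (pt T Q)) := by
  let φ : (Fin k → ℤ) →+ Pts A B K := AddMonoidHom.mk' (fun m => ∑ l, m l • T l) fun m m' => by
    simp only [Pi.add_apply, sum_add_distrib, add_smul]
  refine ⟨{(Q, φ.range)}, Set.finite_singleton _, ?_, fun a _ ⟨U, h1, h2⟩ =>
    ⟨_, rfl, U, mem_of_superset h1 ?_, h2⟩⟩
  · rintro _ rfl _ ⟨m, rfl⟩
    exact ⟨⟨m, rfl⟩, h m⟩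
  · rintro _ ⟨m, rfl⟩
    exact ⟨m, (add_sub_cancel_left Q (φ m)).symm⟩

lemma move {A B : 𝓞 K} (hD : 4 * A ^ 3 + 27 * B ^ 2 ≠ 0) {ι : Type} {l : Filter ι} (v : Pl K)
    (T : Fin k → Pt A B K) {f : ι → Pt A B K} {a : Loc A B v} (e : Fin k → ι → ℤ)
    (h : ToO l fun m => loc v (f m) - a)
    (h' : ∀ j, ∀ N : ℕ, 0 < N → ∀ᶠ i in l, (N : ℤ) ∣ e j i) :
    ToO l fun m => loc v (f m + ∑ j, e j m • T j) - a := by
  have h1 : ToO l fun m => ∑ j, e j m • loc v (T j) := toO_sum (L := Kv v) univ fun j _ =>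
    r_DIVO A B (Kv v) ι hD l (loc v (T j)) (e j) (h' j)
  refine toO_congr (toO_add h h1) (.of_forall fun m => ?_)
  simp only [loc, map_add, map_zsmul, map_sum]
  abel

lemma cos (hD : 4 * A₀ ^ 3 + 27 * B₀ ^ 2 ≠ 0) (hE : ∀ i, 4 * A i ^ 3 + 27 * B i ^ 2 ≠ 0)
    {P : Pt A₀ B₀ K} (hP : NT P) (hS : Sᶜ.Finite) (hI : ∀ F ∈ I, Hom F) (k : ℕ) :
    ∀ (T : Fin k → Pts A B K) (Q : Pts A B K), (∀ l i, Tc P (T l i)) →
      Con I S (Set.range (pt T Q)) := by
  induction k using Nat.strong_induction_on with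
  | _ k ih =>
  intro G Q₀ hG
  by_cases h0 : ∀ m, On I (pt G Q₀ m)
  · exact con_all h0
  simp only [On, not_forall] at h0
  obtain ⟨m₀, F, hF, h0⟩ := h0
  obtain ⟨Q, hQ⟩ : ∃ Q, Q = pt G Q₀ fun l => m₀ l - 1 := ⟨_, rfl⟩
  have hr : Set.range (pt G Q) = Set.range (pt G Q₀) := by
    refine Set.Subset.antisymm ?_ ?_ <;> rintro _ ⟨m, rfl⟩
    · exact ⟨_, by rw [hQ, pt_add]⟩
    · exact ⟨fun l => m l - (m₀ l - 1), by simp only [hQ, pt_add, add_sub_cancel]⟩
  rw [← hr]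
  obtain ⟨E, hE2, hE0, hE1⟩ := rel hD hP hS (hI F hF) hG (Q := Q)
    (by simp only [hQ, pt_add, sub_add_cancel]; exact h0)
  have key : ∀ e ∈ E, ∃ T : Set (Pts A B K × AddSubgroup (Pts A B K)),
      T.Finite ∧ (∀ t ∈ T, ∀ h ∈ t.2, t.1 + h ∈ Set.range (pt G Q) ∧ On I (t.1 + h)) ∧
      ∀ a : ∀ (v : S) (i : Fin n), Loc (A i) (B i) v.1, (∀ v, On I (a v)) →
        ∀ U : Ultrafilter (Fin k → ℤ), Lim U (pt G Q) a →
        (∀ N : ℕ, 0 < N → ∀ᶠ m : Fin k → ℤ in U, (N : ℤ) ∣ ∑ l, e.1 l * m l - e.2) →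
        ∃ t ∈ T, Apx {Q | Q - t.1 ∈ t.2} a := by
    intro e he
    obtain ⟨k', hk, H, m₁, p, g, g0, hg⟩ := r_PROJ k e.1 e.2 (hE0 e he)
    obtain ⟨T, h1, h2, h3⟩ := ih k' hk (fun j => ∑ l, H l j • G l) (pt G Q m₁) fun j i => by
      rw [Finset.sum_apply]
      exact sum_mem fun l _ => zsmul_mem (hG l i) _
    refine ⟨T, h1, fun t ht h hh => ⟨?_, (h2 t ht h hh).2⟩, fun a ha U hU hN => h3 a ha
      (Lim.apx (U := U) (f := fun m => pt (fun j => ∑ l, H l j • G l) (pt G Q m₁) (p m))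
        (fun v i => ?_) (.of_forall fun m => ⟨_, rfl⟩))⟩
    · obtain ⟨w, hw⟩ := (h2 t ht h hh).1
      exact ⟨_, by rw [← hw, pt_comp]⟩
    · have h4 := move (hE i) v.1 (fun l => G l i) (fun l m => m₁ l + ∑ j, H l j * p m j - m l)
        (hU v i) fun l N N0 => by
          filter_upwards [hN (g * N) (Nat.mul_pos g0 N0)] with m hm
          exact dvd_sub_comm.1 (hg N m (by exact_mod_cast hm) l)
      have h5 : ∀ m, pt (fun j => ∑ l, H l j • G l) (pt G Q m₁) (p m) i = pt G Q m i +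
          ∑ l, (m₁ l + ∑ j, H l j * p m j - m l) • G l i := fun m => by
        rw [pt_comp]
        simp only [pt_apply, sum_sub_distrib, sub_smul]
        abel
      simpa only [h5] using h4
  choose! T h1 h2 h3 using key
  refine ⟨⋃ e ∈ E, T e, hE2.biUnion h1, fun t ht => ?_, fun a ha hx => ?_⟩
  · obtain ⟨e, he, ht⟩ := Set.mem_iUnion₂.1 ht
    exact h2 e he t ht
  · obtain ⟨U, hU⟩ := hx.range
    obtain ⟨e, he, hN⟩ := hE1 a U (fun v => ha v F hF) hU
    obtain ⟨t, ht, h4⟩ := h3 e he a ha U hU hN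
    exact ⟨t, Set.mem_iUnion₂.2 ⟨e, he, ht⟩, h4⟩

lemma con_union {κ : Type} [Finite κ] {C : κ → Set (Pts A B K)} (h : ∀ j, Con I S (C j)) :
    Con I S (⋃ j, C j) := by
  choose T h1 h2 h3 using h
  refine ⟨⋃ j, T j, Set.finite_iUnion h1, fun t ht x hx => ?_, fun a ha hU => ?_⟩
  · obtain ⟨j, hj⟩ := Set.mem_iUnion.1 ht
    exact ⟨Set.mem_iUnion.2 ⟨j, (h2 j t hj x hx).1⟩, (h2 j t hj x hx).2⟩
  · obtain ⟨U, hU, hL⟩ := hU
    have h4 : ∀ᶠ x in (U : Filter (Pts A B K)), ∃ j, x ∈ C j :=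
      Filter.mem_of_superset hU fun x hx => Set.mem_iUnion.1 hx
    obtain ⟨j, hj⟩ := Ultrafilter.eventually_exists_iff.1 h4
    obtain ⟨t, ht, h5⟩ := h3 j a ha ⟨U, hj, hL⟩
    exact ⟨t, Set.mem_iUnion.2 ⟨j, ht⟩, h5⟩

lemma con_single (hS : S.Nonempty) (Q : Pts A B K) : Con I S {Q} := by
  refine ⟨{t | t = (Q, ⊥) ∧ On I Q}, (Set.finite_singleton (Q, ⊥)).subset fun t ht => ht.1,
    ?_, fun a ha hU => ?_⟩
  · rintro t ⟨rfl, ht⟩ x hx
    rw [AddSubgroup.mem_bot.1 hx, add_zero]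
    exact ⟨rfl, ht⟩
  · obtain ⟨U, hU, hL⟩ := hU
    obtain ⟨v, hv⟩ := hS
    have e : a ⟨v, hv⟩ = fun i => bc (Kv v) (Q i) := funext fun i => by
      have h0 : ToO (U : Filter (Pts A B K)) fun _ => loc v (Q i) - a ⟨v, hv⟩ i :=
        fun r => by
          filter_upwards [hU, hL ⟨v, hv⟩ i r] with x hx h
          rwa [Set.mem_singleton_iff.1 hx] at h
      have h1 : ToO (U : Filter (Pts A B K)) fun _ => loc v (Q i) - loc v (Q i) :=
        fun r => .of_forall fun _ => .inl (sub_self _)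
      exact lim_unique (L := Kv v) (P := fun _ => loc v (Q i)) h0 h1
    refine ⟨(Q, ⊥), ⟨rfl, fun F hF => ?_⟩, U, Filter.mem_of_superset hU fun x hx => ?_, hL⟩
    · have h1 : evr F (a ⟨v, hv⟩) = 0 := ha ⟨v, hv⟩ F hF
      rw [e, evr_bc] at h1
      exact (map_eq_zero _).1 h1
    · rw [Set.mem_singleton_iff.1 hx]
      exact AddSubgroup.mem_bot.2 (sub_self _)

theorem top (hD : 4 * A₀ ^ 3 + 27 * B₀ ^ 2 ≠ 0) (hE : ∀ i, 4 * A i ^ 3 + 27 * B i ^ 2 ≠ 0)
    (P : Pt A₀ B₀ K) {s : ℕ} (Φ : Fin s → ∀ i, Pt A₀ B₀ K →+ Pt (A i) (B i) K)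
    (hΦ : ∀ j i, Alg (Φ j i)) (Γ : AddSubgroup (Pts A B K))
    (hr : (AddSubgroup.closure (Set.range fun j i => Φ j i P)).relIndex Γ ≠ 0) (hS : Sᶜ.Finite)
    (hI : ∀ F ∈ I, Hom F) : Con I S (Γ : Set (Pts A B K)) := by
  by_cases hP : NT P
  · choose N N0 hN using fun p : Fin s × Fin n => (hΦ p.1 p.2).tied hP
    have hM : (∏ p, N p) ≠ 0 := prod_ne_zero_iff.2 fun p _ => N0 p
    obtain ⟨b, b0, hb⟩ := ((eventually_cofinite_ne 0).and
      ((mul_right_injective₀ hM).tendsto_cofinite.eventually (eventually_all.2 hN))).exists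
    have a0 := mul_ne_zero hM b0
    have h1 := fun p => hb p ((dvd_prod_of_mem N (mem_univ p)).mul_right b)
    generalize (∏ p, N p) * b = a at a0 h1
    obtain ⟨k, T, κ, _, R, h2, h3⟩ := cover Γ _ a0 hr
    rw [h3]
    refine con_union fun c => cos hD hE (nt_zsmul hP a0) hS hI k T (R c) fun l i => ?_
    refine AddSubgroup.closure_induction (p := fun x _ => Tc (a • P) (x i)) ?_ (zero_mem _)
      (fun _ _ _ _ => add_mem) (fun _ _ => neg_mem) (h2 l)
    rintro _ ⟨j, rfl⟩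
    simpa only [map_zsmul, Pi.smul_apply] using h1 (j, i)
  · obtain ⟨a, h1, a0⟩ : ∃ a : ℤ, a • P = 0 ∧ a ≠ 0 := by
      simpa only [NT, not_forall, exists_prop] using hP
    obtain ⟨k, T, κ, _, R, h2, h3⟩ := cover Γ _ a0 hr
    have h4 : ∀ l, T l = 0 := fun l => by
      refine AddSubgroup.closure_induction (p := fun x _ => x = 0) ?_ rfl
        (fun _ _ _ _ h h' => by rw [h, h', add_zero]) (fun _ _ h => by rw [h, neg_zero]) (h2 l)
      rintro _ ⟨j, rfl⟩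
      funext i
      simp only [Pi.smul_apply, ← map_zsmul, h1, map_zero, Pi.zero_apply]
    have := r_INF K
    simp only [h3, h4, smul_zero, sum_const_zero, add_zero, Set.range_const]
    exact con_union fun c => con_single (Set.infinite_of_finite_compl hS).nonempty _

end Pool.Agent.P.MP_ab3ecb_nt.AN
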